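import Pool.Agent.Helper498.NCR.Final

/-!
# Arbitrary linear forms

Copies of the statements of `Pool.Agent.Helper498.NCR` (starting files) with arbitrary steps of the shifts.
-/

set_option autoImplicit false
open Finset Filter Topology MeasureTheory

namespace Pool.Agent.R205.LF

open Pool.Agent.Helper498.NCR

noncomputable section

section det

/-- The deterministic van der Corput inequality. -/
theorem det_ineqG (t : ℕ) (φ ψ χ : ℕ → ℕ → ℕ) (H J : ℕ) (hH : 1 ≤ H) (hJ : 1 ≤ J)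
    (α₁ β₁ q : ℕ → ℕ) (c s cχ : ℕ) (α₂ β₂ : ℕ → ℕ) (c₂ cψ B₁ B₂ : ℕ)
    (hB₁ : ∀ h < H, α₁ h + β₁ h ≤ B₁) (hB₂ : ∀ j < J, α₂ j + β₂ j ≤ B₂)
    (hφ₁ : ∀ h < H, ∀ m n, φ (m + α₁ h) (n + β₁ h) = φ m n + c + s * h)
    (hψ₁ : ∀ h < H, ∀ m n, ψ (m + α₁ h) (n + β₁ h) = ψ m n + q h)
    (hχ₁ : ∀ h < H, ∀ m n, χ (m + α₁ h) (n + β₁ h) = χ m n + cχ)
    (hφ₂ : ∀ j < J, ∀ m n, φ (m + α₂ j) (n + β₂ j) = φ m n + c₂ + t * j)
    (hψ₂ : ∀ j < J, ∀ m n, ψ (m + α₂ j) (n + β₂ j) = ψ m n + cψ)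
    (a u v : ℕ → ℂ) (ha : ∀ k, ‖a k‖ ≤ 1) (hu : ∀ k, ‖u k‖ ≤ 1) (hv : ∀ k, ‖v k‖ ≤ 1)
    (N : ℕ) (hN : 1 ≤ N) :
    ‖bavg N (fun m n => a (φ m n) * u (ψ m n) * v (χ m n))‖ ^ 2
      ≤ 2 * (2 * B₁ / N) ^ 2 + 2 * (((H : ℝ) ^ 2)⁻¹ * ∑ h ∈ range H, ∑ h' ∈ range H,
          (((N : ℝ) ^ 2)⁻¹ * ∑ m ∈ range N, ∑ n ∈ range N,
            ‖(J : ℂ)⁻¹ * ∑ j ∈ range J, a (φ m n + (c₂ + c) + (s * h + t * j)) *
              (starRingEnd ℂ) (a (φ m n + (c₂ + c) + (s * h' + t * j)))‖ + 2 * B₂ / N)) := by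
  have hN0 : (0 : ℝ) < N := by exact_mod_cast hN
  have hH0 : (0 : ℝ) < H := by exact_mod_cast hH
  set Φ : ℕ → ℕ → ℂ := fun m n => a (φ m n) * u (ψ m n) * v (χ m n) with hΦ
  have hΦ1 : ∀ m n, ‖Φ m n‖ ≤ 1 := by
    intro m n
    simp only [hΦ, norm_mul]
    have := mul_le_mul (mul_le_mul (ha (φ m n)) (hu (ψ m n)) (norm_nonneg _) zero_le_one)
      (hv (χ m n)) (norm_nonneg _) (by norm_num)
    simpa using this
  set X : ℕ → ℕ → ℂ := fun m n => (H : ℂ)⁻¹ * ∑ h ∈ range H,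
    a (φ m n + c + s * h) * u (ψ m n + q h) with hX
  -- first shift
  have s1 := avg_shift Φ hΦ1 N H B₁ hN hH α₁ β₁ hB₁
  have e1 : (fun m n => (H : ℂ)⁻¹ * ∑ h ∈ range H, Φ (m + α₁ h) (n + β₁ h))
      = fun m n => v (χ m n + cχ) * X m n := by
    funext m n
    simp only [hΦ, hX]
    rw [mul_left_comm, Finset.mul_sum (range H) _ (v _)]
    congr 1
    refine Finset.sum_congr rfl fun h hh => ?_
    rw [hφ₁ h (mem_range.1 hh), hψ₁ h (mem_range.1 hh), hχ₁ h (mem_range.1 hh)]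
    ring
  rw [e1] at s1
  have s2 : ‖bavg N (fun m n => v (χ m n + cχ) * X m n)‖ ≤
      ((N : ℝ) ^ 2)⁻¹ * ∑ m ∈ range N, ∑ n ∈ range N, ‖X m n‖ := by
    refine (norm_bavg_le _ _).trans ?_
    gcongr with m _ n _
    rw [norm_mul]
    exact mul_le_of_le_one_left (norm_nonneg _) (hv _)
  have s3 : ‖bavg N (fun m n => v (χ m n + cχ) * X m n)‖ ^ 2 ≤
      ((N : ℝ) ^ 2)⁻¹ * ∑ m ∈ range N, ∑ n ∈ range N, ‖X m n‖ ^ 2 :=
    (pow_le_pow_left₀ (norm_nonneg _) s2 2).trans (sq_avg_le N _)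
  -- expand the square
  set Ψ : ℕ → ℕ → ℕ → ℕ → ℂ := fun h h' m n =>
    (a (φ m n + c + s * h) * (starRingEnd ℂ) (a (φ m n + c + s * h'))) *
      (u (ψ m n + q h) * (starRingEnd ℂ) (u (ψ m n + q h'))) with hΨ
  have e2 : (((((N : ℝ) ^ 2)⁻¹ * ∑ m ∈ range N, ∑ n ∈ range N, ‖X m n‖ ^ 2 : ℝ)) : ℂ)
      = ((H : ℂ) ^ 2)⁻¹ * ∑ h ∈ range H, ∑ h' ∈ range H, bavg N (Ψ h h') := by
    have hx : ∀ m n, ((‖X m n‖ ^ 2 : ℝ) : ℂ) =
        ((H : ℂ) ^ 2)⁻¹ * ∑ h ∈ range H, ∑ h' ∈ range H, Ψ h h' m n := by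
      intro m n
      have : ((‖X m n‖ ^ 2 : ℝ) : ℂ) = X m n * (starRingEnd ℂ) (X m n) := by
        rw [Complex.mul_conj, Complex.normSq_eq_norm_sq]
      rw [this]
      simp only [hX, hΨ, map_mul, map_inv₀, map_sum, Complex.conj_natCast]
      rw [mul_mul_mul_comm, Finset.sum_mul_sum]
      congr 1
      · rw [sq, mul_inv]
      · refine Finset.sum_congr rfl fun h _ => Finset.sum_congr rfl fun h' _ => ?_
        ring
    push_cast
    simp_rw [← Complex.ofReal_pow, hx, bavg, ← Finset.mul_sum]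
    rw [mul_left_comm]
    congr 2
    calc ∑ m ∈ range N, ∑ n ∈ range N, ∑ h ∈ range H, ∑ h' ∈ range H, Ψ h h' m n
        = ∑ m ∈ range N, ∑ h ∈ range H, ∑ n ∈ range N, ∑ h' ∈ range H, Ψ h h' m n :=
          Finset.sum_congr rfl fun m _ => Finset.sum_comm
      _ = ∑ h ∈ range H, ∑ m ∈ range N, ∑ n ∈ range N, ∑ h' ∈ range H, Ψ h h' m n :=
          Finset.sum_comm
      _ = ∑ h ∈ range H, ∑ m ∈ range N, ∑ h' ∈ range H, ∑ n ∈ range N, Ψ h h' m n :=
          Finset.sum_congr rfl fun h _ => Finset.sum_congr rfl fun m _ => Finset.sum_comm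
      _ = ∑ h ∈ range H, ∑ h' ∈ range H, ∑ m ∈ range N, ∑ n ∈ range N, Ψ h h' m n :=
          Finset.sum_congr rfl fun h _ => Finset.sum_comm
  have s4 : ((N : ℝ) ^ 2)⁻¹ * ∑ m ∈ range N, ∑ n ∈ range N, ‖X m n‖ ^ 2 ≤
      ((H : ℝ) ^ 2)⁻¹ * ∑ h ∈ range H, ∑ h' ∈ range H, ‖bavg N (Ψ h h')‖ := by
    have hnn : 0 ≤ ((N : ℝ) ^ 2)⁻¹ * ∑ m ∈ range N, ∑ n ∈ range N, ‖X m n‖ ^ 2 := by positivity
    have h0 : ((N : ℝ) ^ 2)⁻¹ * ∑ m ∈ range N, ∑ n ∈ range N, ‖X m n‖ ^ 2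
        = ‖((((N : ℝ) ^ 2)⁻¹ * ∑ m ∈ range N, ∑ n ∈ range N, ‖X m n‖ ^ 2 : ℝ) : ℂ)‖ := by
      rw [Complex.norm_real, Real.norm_of_nonneg hnn]
    rw [h0, e2, norm_mul, norm_inv, norm_pow, Complex.norm_natCast]
    gcongr
    refine (norm_sum_le _ _).trans ?_
    exact Finset.sum_le_sum fun h _ => norm_sum_le _ _
  have s5 : ∀ h ∈ range H, ∀ h' ∈ range H, ‖bavg N (Ψ h h')‖ ≤
      ((N : ℝ) ^ 2)⁻¹ * ∑ m ∈ range N, ∑ n ∈ range N,
            ‖(J : ℂ)⁻¹ * ∑ j ∈ range J, a (φ m n + (c₂ + c) + (s * h + t * j)) *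
              (starRingEnd ℂ) (a (φ m n + (c₂ + c) + (s * h' + t * j)))‖ + 2 * B₂ / N := by
    intro h _ h' _
    have hΨ1 : ∀ m n, ‖Ψ h h' m n‖ ≤ 1 := by
      intro m n
      simp only [hΨ, norm_mul, RCLike.norm_conj]
      have A := mul_le_mul (ha (φ m n + c + s * h)) (ha (φ m n + c + s * h')) (norm_nonneg _)
        zero_le_one
      have A' := mul_le_mul (hu (ψ m n + q h)) (hu (ψ m n + q h')) (norm_nonneg _)
        zero_le_one
      have := mul_le_mul A A' (by positivity) (by norm_num)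
      simpa using this
    have t1 := avg_shift (Ψ h h') hΨ1 N J B₂ hN hJ α₂ β₂ hB₂
    have e3 : (fun m n => (J : ℂ)⁻¹ * ∑ j ∈ range J, Ψ h h' (m + α₂ j) (n + β₂ j))
        = fun m n => (u (ψ m n + cψ + q h) * (starRingEnd ℂ) (u (ψ m n + cψ + q h'))) *
          ((J : ℂ)⁻¹ * ∑ j ∈ range J, a (φ m n + (c₂ + c) + (s * h + t * j)) *
              (starRingEnd ℂ) (a (φ m n + (c₂ + c) + (s * h' + t * j)))) := by
      funext m n
      rw [mul_left_comm, Finset.mul_sum (range J) _ (_ * _)]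
      congr 1
      refine Finset.sum_congr rfl fun j hj => ?_
      simp only [hΨ]
      rw [hφ₂ j (mem_range.1 hj), hψ₂ j (mem_range.1 hj)]
      have x1 : φ m n + c₂ + t * j + c + s * h = φ m n + (c₂ + c) + (s * h + t * j) := by ring
      have x2 : φ m n + c₂ + t * j + c + s * h' = φ m n + (c₂ + c) + (s * h' + t * j) := by ring
      rw [x1, x2]
      ring
    rw [e3] at t1
    have t2 : ‖bavg N (fun m n => (u (ψ m n + cψ + q h) *
        (starRingEnd ℂ) (u (ψ m n + cψ + q h'))) *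
          ((J : ℂ)⁻¹ * ∑ j ∈ range J, a (φ m n + (c₂ + c) + (s * h + t * j)) *
              (starRingEnd ℂ) (a (φ m n + (c₂ + c) + (s * h' + t * j)))))‖ ≤
      ((N : ℝ) ^ 2)⁻¹ * ∑ m ∈ range N, ∑ n ∈ range N,
            ‖(J : ℂ)⁻¹ * ∑ j ∈ range J, a (φ m n + (c₂ + c) + (s * h + t * j)) *
              (starRingEnd ℂ) (a (φ m n + (c₂ + c) + (s * h' + t * j)))‖ := by
      refine (norm_bavg_le _ _).trans ?_
      gcongr with m _ n _
      rw [norm_mul]
      refine mul_le_of_le_one_left (norm_nonneg _) ?_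
      rw [norm_mul, RCLike.norm_conj]
      have := mul_le_mul (hu (ψ m n + cψ + q h)) (hu (ψ m n + cψ + q h')) (norm_nonneg _)
        zero_le_one
      simpa using this
    have t3 := norm_sub_norm_le (bavg N (Ψ h h')) (bavg N (fun m n => (u (ψ m n + cψ + q h) *
        (starRingEnd ℂ) (u (ψ m n + cψ + q h'))) *
          ((J : ℂ)⁻¹ * ∑ j ∈ range J, a (φ m n + (c₂ + c) + (s * h + t * j)) *
              (starRingEnd ℂ) (a (φ m n + (c₂ + c) + (s * h' + t * j))))))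
    linarith
  have s6 : ‖bavg N Φ‖ ≤ 2 * B₁ / N + ‖bavg N (fun m n => v (χ m n + cχ) * X m n)‖ := by
    have := norm_sub_norm_le (bavg N Φ) (bavg N (fun m n => v (χ m n + cχ) * X m n))
    linarith
  have s7 : ‖bavg N Φ‖ ^ 2 ≤ 2 * (2 * B₁ / N) ^ 2 +
      2 * ‖bavg N (fun m n => v (χ m n + cχ) * X m n)‖ ^ 2 := by
    have h1 := pow_le_pow_left₀ (norm_nonneg _) s6 2
    nlinarith [sq_nonneg (2 * B₁ / N - ‖bavg N (fun m n => v (χ m n + cχ) * X m n)‖ : ℝ)]
  refine s7.trans ?_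
  gcongr
  refine s3.trans (s4.trans ?_)
  gcongr with h hh h' hh'
  exact s5 h hh h' hh'

end det

section hilbert
variable {E : Type*} [NormedAddCommGroup E] [InnerProductSpace ℂ E]

lemma eigSpan_powG (U : E →ₗᵢ[ℂ] E) (s : ℕ) (h1 : 1 ≤ s) : EigSpan (U ^ s) ≤ EigSpan U := by
  unfold EigSpan
  rw [Submodule.span_le]
  rintro y ⟨l, hl, hy⟩
  have hs0 : s ≠ 0 := by omega
  obtain ⟨c, hc⟩ := IsAlgClosed.exists_pow_nat_eq l (n := s) (by omega)
  have hcn : ‖c‖ = 1 := by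
    have : ‖c‖ ^ s = 1 := by rw [← norm_pow, hc, hl]
    exact (pow_eq_one_iff_of_nonneg (norm_nonneg c) hs0).1 this
  have hc0 : c ≠ 0 := fun h => by simp [h] at hcn
  have hω := Complex.isPrimitiveRoot_exp s hs0
  set ω : ℂ := Complex.exp (2 * Real.pi * Complex.I / s) with hωd
  have hωs : ω ^ s = 1 := hω.pow_eq_one
  have hωn : ‖ω‖ = 1 := by
    have : ‖ω‖ ^ s = 1 := by rw [← norm_pow, hωs, norm_one]
    exact (pow_eq_one_iff_of_nonneg (norm_nonneg ω) hs0).1 this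
  have hω0 : ω ≠ 0 := fun h => by simp [h] at hωn
  -- the components
  set yk : ℕ → E := fun k => (s : ℂ)⁻¹ • ∑ j ∈ range s, ((c * ω ^ k)⁻¹) ^ j • (U ^ j) y with hyk
  have hck : ∀ k, c * ω ^ k ≠ 0 := fun k => mul_ne_zero hc0 (pow_ne_zero _ hω0)
  have hcks : ∀ k, (c * ω ^ k) ^ s = l := fun k => by
    rw [mul_pow, hc, ← pow_mul, mul_comm k, pow_mul, hωs, one_pow, mul_one]
  have heig : ∀ k, U (yk k) = (c * ω ^ k) • yk k := by
    intro k
    set b := c * ω ^ k with hb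
    have hb0 : b ≠ 0 := hck k
    simp only [hyk]
    rw [map_smul, map_sum, smul_comm]
    congr 1
    have e1 : ∀ j ∈ range s, U ((b⁻¹) ^ j • (U ^ j) y) = b • ((b⁻¹) ^ (j + 1) • (U ^ (j + 1)) y) := by
      intro j _
      have e0 : b * b⁻¹ ^ (j + 1) = b⁻¹ ^ j := by rw [pow_succ', ← mul_assoc, mul_inv_cancel₀ hb0, one_mul]
      rw [map_smul, ← U_pow_succ, smul_smul, e0]
    rw [Finset.sum_congr rfl e1, ← Finset.smul_sum]
    congr 1
    have e2 : ∑ j ∈ range (s + 1), (b⁻¹) ^ j • (U ^ j) y = ∑ j ∈ range s, (b⁻¹) ^ (j + 1) • (U ^ (j + 1)) y +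
        (b⁻¹) ^ 0 • (U ^ 0) y := Finset.sum_range_succ' _ _
    have e3 : ∑ j ∈ range (s + 1), (b⁻¹) ^ j • (U ^ j) y = ∑ j ∈ range s, (b⁻¹) ^ j • (U ^ j) y +
        (b⁻¹) ^ s • (U ^ s) y := Finset.sum_range_succ _ _
    have e4 : (b⁻¹) ^ s • (U ^ s) y = (b⁻¹) ^ 0 • (U ^ 0) y := by
      rw [hy, smul_smul, inv_pow, hcks k, ← hcks k, inv_mul_cancel₀ (pow_ne_zero _ hb0), pow_zero, pow_zero]
      rfl
    rw [e4] at e3
    exact add_right_cancel (e2.symm.trans e3)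
  have hsum : ∑ k ∈ range s, yk k = y := by
    simp only [hyk]
    rw [← Finset.smul_sum, Finset.sum_comm]
    have e1 : ∀ j ∈ range s, ∑ k ∈ range s, ((c * ω ^ k)⁻¹) ^ j • (U ^ j) y =
        if j = 0 then (s : ℂ) • y else 0 := by
      intro j hj
      rw [← Finset.sum_smul]
      split_ifs with h0
      · subst h0
        simp
      · have e2 : ∑ k ∈ range s, ((c * ω ^ k)⁻¹) ^ j = (c⁻¹) ^ j * ∑ k ∈ range s, ((ω⁻¹) ^ j) ^ k := by
          rw [Finset.mul_sum]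
          refine Finset.sum_congr rfl fun k _ => ?_
          rw [mul_inv, mul_pow]
          congr 1
          rw [← inv_pow, ← pow_mul, ← pow_mul, mul_comm k j]
        have e3 : ((ω⁻¹) ^ j) ≠ 1 := by
          intro h
          have h2 : ω ^ j = 1 := by
            rw [inv_pow] at h
            exact inv_eq_one.1 h
          exact hω.pow_ne_one_of_pos_of_lt h0 (mem_range.1 hj) h2
        have e4 : ∑ k ∈ range s, ((ω⁻¹) ^ j) ^ k = 0 := by
          have h5 := mul_neg_geom_sum ((ω⁻¹) ^ j) s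
          have h6 : ((ω⁻¹) ^ j) ^ s = 1 := by
            rw [← pow_mul, mul_comm, pow_mul, inv_pow, hωs, inv_one, one_pow]
          rw [h6, sub_self] at h5
          rcases mul_eq_zero.1 h5 with h7 | h7
          · exact absurd (sub_eq_zero.1 h7).symm e3
          · exact h7
        rw [e2, e4, mul_zero, zero_smul]
    rw [Finset.sum_congr rfl e1, Finset.sum_ite_eq' (range s) 0 (fun _ => (s : ℂ) • y), if_pos (mem_range.2 (by omega)),
      smul_smul, inv_mul_cancel₀ (by exact_mod_cast hs0), one_smul]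
  rw [← hsum]
  refine Submodule.sum_mem _ fun k _ => Submodule.subset_span ⟨c * ω ^ k, ?_, heig k⟩
  rw [norm_mul, norm_pow, hcn, hωn, one_pow, one_mul]

end hilbert

section meas

variable {Ω : Type*} [MeasurableSpace Ω]

/-- The correlation condition used in the van der Corput argument, with steps `s` and `t`. -/
def CtrlG (μ : Measure Ω) (T : Ω → Ω) (g : Ω → ℂ) (s t : ℕ) : Prop :=
  ∀ ε > (0 : ℝ), ∃ H J : ℕ, 1 ≤ H ∧ 1 ≤ J ∧
    ((H : ℝ) ^ 2)⁻¹ * ∑ h ∈ range H, ∑ h' ∈ range H,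
      ∫ x, ‖(J : ℂ)⁻¹ * ∑ j ∈ range J, g (T^[s * h + t * j] x) *
        (starRingEnd ℂ) (g (T^[s * h' + t * j] x))‖ ∂μ ≤ ε

theorem control_absG {μ : Measure Ω} [IsProbabilityMeasure μ] {T : Ω → Ω}
    (hT : MeasurePreserving T μ μ) {g : Ω → ℂ} (hg : Measurable g) (hg1 : ∀ x, ‖g x‖ ≤ 1)
    (s t : ℕ) (hC : CtrlG μ T g s t) (φ ψ χ : ℕ → ℕ → ℕ)
    (hs1 : ∀ H : ℕ, ∃ (α₁ β₁ q : ℕ → ℕ) (c cχ B₁ : ℕ), (∀ h < H, α₁ h + β₁ h ≤ B₁) ∧
      (∀ h < H, ∀ m n, φ (m + α₁ h) (n + β₁ h) = φ m n + c + s * h) ∧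
      (∀ h < H, ∀ m n, ψ (m + α₁ h) (n + β₁ h) = ψ m n + q h) ∧
      (∀ h < H, ∀ m n, χ (m + α₁ h) (n + β₁ h) = χ m n + cχ))
    (hs2 : ∀ J : ℕ, ∃ (α₂ β₂ : ℕ → ℕ) (c₂ cψ B₂ : ℕ), (∀ j < J, α₂ j + β₂ j ≤ B₂) ∧
      (∀ j < J, ∀ m n, φ (m + α₂ j) (n + β₂ j) = φ m n + c₂ + t * j) ∧
      (∀ j < J, ∀ m n, ψ (m + α₂ j) (n + β₂ j) = ψ m n + cψ)) :
    ∀ ε > (0 : ℝ), ∃ N₀ : ℕ, ∀ N ≥ N₀, ∀ (u v : ℕ → Ω → ℂ),
      (∀ k, Measurable (u k)) → (∀ k x, ‖u k x‖ ≤ 1) →
      (∀ k, Measurable (v k)) → (∀ k x, ‖v k x‖ ≤ 1) →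
      ∫ x, ‖bavg N (fun m n => g (T^[φ m n] x) * u (ψ m n) x * v (χ m n) x)‖ ^ 2 ∂μ ≤ ε := by
  intro ε hε
  obtain ⟨H, J, hH, hJ, hHJ⟩ := hC (ε / 8) (by positivity)
  obtain ⟨α₁, β₁, q, c, cχ, B₁, hB₁, hφ₁, hψ₁, hχ₁⟩ := hs1 H
  obtain ⟨α₂, β₂, c₂, cψ, B₂, hB₂, hφ₂, hψ₂⟩ := hs2 J
  -- choose N₀
  have lim1 : Filter.Tendsto (fun N : ℕ => 2 * (2 * (B₁ : ℝ) / N) ^ 2) Filter.atTop (nhds 0) := by
    have : Filter.Tendsto (fun N : ℕ => 2 * (B₁ : ℝ) / N) Filter.atTop (nhds 0) :=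
      tendsto_const_div_atTop_nhds_zero_nat _
    simpa using (this.pow 2).const_mul 2
  have lim2 : Filter.Tendsto (fun N : ℕ => 2 * (B₂ : ℝ) / N) Filter.atTop (nhds 0) :=
    tendsto_const_div_atTop_nhds_zero_nat _
  have ev1 := (lim1.eventually (gt_mem_nhds (show (0 : ℝ) < ε / 4 by positivity)))
  have ev2 := (lim2.eventually (gt_mem_nhds (show (0 : ℝ) < ε / 8 by positivity)))
  obtain ⟨N₁, hN₁⟩ := Filter.eventually_atTop.1 (ev1.and ev2)
  refine ⟨max N₁ 1, fun N hN u v hu hu1 hv hv1 => ?_⟩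
  have hN1 : 1 ≤ N := le_trans (le_max_right _ _) hN
  obtain ⟨hb1, hb2⟩ := hN₁ N (le_trans (le_max_left _ _) hN)
  have hN0 : (0 : ℝ) < N := by exact_mod_cast hN1
  have hH0 : (0 : ℝ) < H := by exact_mod_cast hH
  -- the local averages
  set D : ℕ → ℕ → Ω → ℝ := fun h h' y => ‖(J : ℂ)⁻¹ * ∑ j ∈ range J, g (T^[s * h + t * j] y) *
        (starRingEnd ℂ) (g (T^[s * h' + t * j] y))‖ with hD
  have hTm : ∀ k, Measurable (T^[k]) := fun k => hT.measurable.iterate k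
  have hgm : ∀ k, Measurable (fun x => g (T^[k] x)) := fun k => hg.comp (hTm k)
  have hDm : ∀ h h', Measurable (D h h') := by
    intro h h'
    refine Measurable.norm ?_
    refine Measurable.const_mul ?_ _
    refine Finset.measurable_sum _ fun j _ => ?_
    exact (hgm _).mul (Complex.continuous_conj.measurable.comp (hgm _))
  have hD1 : ∀ h h' y, ‖D h h' y‖ ≤ 1 := by
    intro h h' y
    simp only [hD]
    rw [norm_norm, norm_mul, norm_inv, Complex.norm_natCast]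
    have hJ0 : (0 : ℝ) < J := by exact_mod_cast hJ
    calc (J : ℝ)⁻¹ * ‖∑ j ∈ range J, g (T^[s * h + t * j] y) *
        (starRingEnd ℂ) (g (T^[s * h' + t * j] y))‖ ≤ (J : ℝ)⁻¹ * ∑ j ∈ range J, (1 : ℝ) := by
          gcongr
          refine (norm_sum_le _ _).trans (Finset.sum_le_sum fun j _ => ?_)
          rw [norm_mul, RCLike.norm_conj]
          simpa using mul_le_mul (hg1 _) (hg1 _) (norm_nonneg _) zero_le_one
      _ = 1 := by simp; field_simp
  have hDint : ∀ h h' k, Integrable (fun x => D h h' (T^[k] x)) μ := fun h h' k =>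
    integrable_of_bdd ((hDm h h').comp (hTm k)) 1 fun x => hD1 h h' _
  have hDinv : ∀ h h' k, ∫ x, D h h' (T^[k] x) ∂μ = ∫ x, D h h' x ∂μ := fun h h' k =>
    integral_comp_mp (hT.iterate k) (hDm h h')
  -- pointwise inequality
  have pt : ∀ x, ‖bavg N (fun m n => g (T^[φ m n] x) * u (ψ m n) x * v (χ m n) x)‖ ^ 2
      ≤ 2 * (2 * B₁ / N) ^ 2 + 2 * (((H : ℝ) ^ 2)⁻¹ * ∑ h ∈ range H, ∑ h' ∈ range H,
          (((N : ℝ) ^ 2)⁻¹ * ∑ m ∈ range N, ∑ n ∈ range N,
            D h h' (T^[φ m n + (c₂ + c)] x) + 2 * B₂ / N)) := by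
    intro x
    have := det_ineqG t φ ψ χ H J hH hJ α₁ β₁ q c s cχ α₂ β₂ c₂ cψ B₁ B₂ hB₁ hB₂ hφ₁ hψ₁ hχ₁ hφ₂
      hψ₂ (fun k => g (T^[k] x)) (fun k => u k x) (fun k => v k x) (fun k => hg1 _)
      (fun k => hu1 k x) (fun k => hv1 k x) N hN1
    refine this.trans (le_of_eq ?_)
    congr 3
    refine Finset.sum_congr rfl fun h _ => Finset.sum_congr rfl fun h' _ => ?_
    congr 2
    refine Finset.sum_congr rfl fun m _ => Finset.sum_congr rfl fun n _ => ?_
    simp only [hD]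
    congr 2
    refine Finset.sum_congr rfl fun j _ => ?_
    rw [← Function.iterate_add_apply, ← Function.iterate_add_apply,
      add_comm (s * h + t * j), add_comm (s * h' + t * j)]
  have hLm : Measurable (fun x => ‖bavg N (fun m n => g (T^[φ m n] x) * u (ψ m n) x *
      v (χ m n) x)‖ ^ 2) := by
    refine (Measurable.norm ?_).pow_const 2
    unfold bavg
    refine Measurable.const_mul ?_ _
    exact Finset.measurable_sum _ fun m _ => Finset.measurable_sum _ fun n _ =>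
      ((hgm _).mul (hu _)).mul (hv _)
  have hL1 : ∀ x, ‖(‖bavg N (fun m n => g (T^[φ m n] x) * u (ψ m n) x *
      v (χ m n) x)‖ ^ 2 : ℝ)‖ ≤ 1 := by
    intro x
    rw [Real.norm_of_nonneg (by positivity)]
    refine pow_le_one₀ (norm_nonneg _) (norm_bavg_le_one N _ fun m n => ?_)
    rw [norm_mul, norm_mul]
    have A := mul_le_mul (mul_le_mul (hg1 (T^[φ m n] x)) (hu1 (ψ m n) x) (norm_nonneg _)
      zero_le_one) (hv1 (χ m n) x) (norm_nonneg _) (by norm_num)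
    simpa using A
  have hRint : Integrable (fun x => 2 * (2 * (B₁ : ℝ) / N) ^ 2 + 2 * (((H : ℝ) ^ 2)⁻¹ *
      ∑ h ∈ range H, ∑ h' ∈ range H, (((N : ℝ) ^ 2)⁻¹ * ∑ m ∈ range N, ∑ n ∈ range N,
            D h h' (T^[φ m n + (c₂ + c)] x) + 2 * B₂ / N))) μ := by
    refine (integrable_const _).add (Integrable.const_mul (Integrable.const_mul ?_ _) _)
    refine integrable_finsetSum _ fun h _ => integrable_finsetSum _ fun h' _ => ?_
    refine Integrable.add (Integrable.const_mul ?_ _) (integrable_const _)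
    exact integrable_finsetSum _ fun m _ => integrable_finsetSum _ fun n _ => hDint _ _ _
  have key := integral_mono (integrable_of_bdd hLm 1 hL1) hRint pt
  refine key.trans ?_
  have hcalc : ∫ x, (2 * (2 * (B₁ : ℝ) / N) ^ 2 + 2 * (((H : ℝ) ^ 2)⁻¹ *
      ∑ h ∈ range H, ∑ h' ∈ range H, (((N : ℝ) ^ 2)⁻¹ * ∑ m ∈ range N, ∑ n ∈ range N,
            D h h' (T^[φ m n + (c₂ + c)] x) + 2 * B₂ / N))) ∂μ
      = 2 * (2 * (B₁ : ℝ) / N) ^ 2 + 2 * (((H : ℝ) ^ 2)⁻¹ *
      ∑ h ∈ range H, ∑ h' ∈ range H, (∫ x, D h h' x ∂μ + 2 * B₂ / N)) := by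
    have i1 : ∀ h h', Integrable (fun x => ((N : ℝ) ^ 2)⁻¹ * ∑ m ∈ range N, ∑ n ∈ range N,
            D h h' (T^[φ m n + (c₂ + c)] x)) μ := fun h h' =>
      Integrable.const_mul (integrable_finsetSum _ fun m _ =>
        integrable_finsetSum _ fun n _ => hDint _ _ _) _
    have i2 : ∀ h h', Integrable (fun x => ((N : ℝ) ^ 2)⁻¹ * ∑ m ∈ range N, ∑ n ∈ range N,
            D h h' (T^[φ m n + (c₂ + c)] x) + 2 * B₂ / N) μ := fun h h' =>
      (i1 h h').add (integrable_const _)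
    rw [integral_add (integrable_const _) (Integrable.const_mul (Integrable.const_mul
      (integrable_finsetSum _ fun h _ => integrable_finsetSum _ fun h' _ => i2 h h') _) _),
      integral_const, integral_const_mul, integral_const_mul,
      integral_finsetSum _ fun h _ => integrable_finsetSum _ fun h' _ => i2 h h']
    simp only [integral_const, probReal_univ, smul_eq_mul, one_mul]
    congr 3
    refine Finset.sum_congr rfl fun h _ => ?_
    rw [integral_finsetSum _ fun h' _ => i2 h h']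
    refine Finset.sum_congr rfl fun h' _ => ?_
    rw [integral_add (i1 h h') (integrable_const _), integral_const_mul,
      integral_finsetSum _ fun m _ => integrable_finsetSum _ fun n _ => hDint _ _ _]
    have : ∀ m ∈ range N, ∫ x, ∑ n ∈ range N, D h h' (T^[φ m n + (c₂ + c)] x) ∂μ
        = N * ∫ x, D h h' x ∂μ := by
      intro m _
      rw [integral_finsetSum _ fun n _ => hDint _ _ _]
      simp only [hDinv, sum_const, card_range, nsmul_eq_mul]
    rw [Finset.sum_congr rfl this]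
    simp only [sum_const, card_range, nsmul_eq_mul, integral_const, probReal_univ, smul_eq_mul,
      one_mul]
    field_simp
  rw [hcalc]
  have h9 : ((H : ℝ) ^ 2)⁻¹ * ∑ h ∈ range H, ∑ h' ∈ range H, (∫ x, D h h' x ∂μ + 2 * B₂ / N)
      = ((H : ℝ) ^ 2)⁻¹ * (∑ h ∈ range H, ∑ h' ∈ range H, ∫ x, D h h' x ∂μ) + 2 * B₂ / N := by
    simp only [Finset.sum_add_distrib, sum_const, card_range, nsmul_eq_mul]
    field_simp
  rw [h9]
  linarith


/-- the condition from the ergodic components of a power -/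
theorem ctrlG_of_components {μ : Measure Ω} [IsProbabilityMeasure μ] {T : Ω → Ω}
    (hT : MeasurePreserving T μ μ) (w : ℕ) (hw : 1 ≤ w) (B : ℕ → Set Ω) (hBm : ∀ i, MeasurableSet (B i))
    (hBe : ∀ i, Ergodic (T^[w]) (μ.restrict (B i))) (hBc : μ (⋃ i, B i)ᶜ = 0)
    {g : Ω → ℂ} (hg : Measurable g) (hg1 : ∀ x, ‖g x‖ ≤ 1)
    (horth : (memLp_bdd (μ := μ) hg hg1).toLp g ∈ (EigSpan (koop hT))ᗮ) : CtrlG μ T g w w := by
  have hTw := hT.iterate w
  have hk : koop hTw = koop hT ^ w := by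
    ext1 F
    refine Lp.ext ?_
    refine (koop_coe hTw F).trans ?_
    exact (koop_pow_coe hT w F).symm
  have horth' : (memLp_bdd (μ := μ) hg hg1).toLp g ∈ (EigSpan (koop hTw))ᗮ := by
    rw [hk]
    exact Submodule.orthogonal_le (eigSpan_powG (koop hT) w hw) horth
  have h1 := ctrl_of_components hTw B hBm hBe hBc hg hg1 horth' 1 le_rfl (by norm_num)
  intro ε hε
  obtain ⟨H, J, hH, hJ, h2⟩ := h1 ε hε
  refine ⟨H, J, hH, hJ, ?_⟩
  have e : ∀ (a b : ℕ) (x : Ω), (T^[w])^[1 * a + b] x = T^[w * a + w * b] x := by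
    intro a b x
    rw [← Function.iterate_mul]
    congr 1
    ring
  simp only [e] at h2
  exact h2

end meas

section main

variable {Ω : Type*} [MeasurableSpace Ω] {μ : Measure Ω} [IsProbabilityMeasure μ] {T : Ω → Ω}

/-- Two-term control. -/
theorem control_twoG (hT : MeasurePreserving T μ μ) {g : Ω → ℂ} (hg : Measurable g)
    (hg1 : ∀ x, ‖g x‖ ≤ 1)
    (horth : (memLp_bdd (μ := μ) hg hg1).toLp g ∈ (EigSpan (koop hT))ᗮ)
    (s : ℕ) (hs1 : 1 ≤ s) (ψ χ : ℕ → ℕ → ℕ)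
    (hsh : ∀ J : ℕ, ∃ (α₂ β₂ : ℕ → ℕ) (c₂ cχ B₂ : ℕ), (∀ j < J, α₂ j + β₂ j ≤ B₂) ∧
      (∀ j < J, ∀ m n, ψ (m + α₂ j) (n + β₂ j) = ψ m n + c₂ + s * j) ∧
      (∀ j < J, ∀ m n, χ (m + α₂ j) (n + β₂ j) = χ m n + cχ))
    (A : ℂ) (hA : ‖A‖ = 1) :
    ∀ ε > (0 : ℝ), ∃ N₀ : ℕ, ∀ N ≥ N₀, ∀ (v : ℕ → Ω → ℂ),
      (∀ k, Measurable (v k)) → (∀ k x, ‖v k x‖ ≤ 1) →
      ∫ x, ‖bavg N (fun m n => (A ^ (ψ m n) * g (T^[ψ m n] x)) * v (χ m n) x)‖ ^ 2 ∂μ ≤ ε := by
  intro ε hε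
  set x0 := (memLp_bdd (μ := μ) hg hg1).toLp g with hx0
  set U := koop hT with hU
  have hperp : x0 ∈ (EigSpan (U ^ s))ᗮ :=
    Submodule.orthogonal_le (eigSpan_powG U s hs1) horth
  have hlim := tavg_tendsto_zero (U ^ s) (A ^ s) (by rw [norm_pow, hA, one_pow]) x0 hperp
  have hlim2 : Tendsto (fun J => ‖tavg (U ^ s) (A ^ s) J x0‖ ^ 2) atTop (𝓝 0) := by
    simpa using hlim.norm.pow 2
  obtain ⟨J, hJs, hJ⟩ := ((hlim2.eventually (gt_mem_nhds (show (0 : ℝ) < ε / 4 by positivity))).and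
    (eventually_ge_atTop 1)).exists
  obtain ⟨α₂, β₂, c₂, cχ, B₂, hB₂, hψ, hχ⟩ := hsh J
  have lim1 : Tendsto (fun N : ℕ => 2 * (2 * (B₂ : ℝ) / N) ^ 2) atTop (𝓝 0) := by
    have : Tendsto (fun N : ℕ => 2 * (B₂ : ℝ) / N) atTop (𝓝 0) :=
      tendsto_const_div_atTop_nhds_zero_nat _
    simpa using (this.pow 2).const_mul 2
  obtain ⟨N₁, hN₁⟩ := eventually_atTop.1
    (lim1.eventually (gt_mem_nhds (show (0 : ℝ) < ε / 2 by positivity)))
  refine ⟨max N₁ 1, fun N hN v hv hv1 => ?_⟩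
  have hN1 : 1 ≤ N := le_trans (le_max_right _ _) hN
  have hb := hN₁ N (le_trans (le_max_left _ _) hN)
  have hN0 : (0 : ℝ) < N := by exact_mod_cast hN1
  set D : Ω → ℝ := fun y => ‖(J : ℂ)⁻¹ * ∑ j ∈ range J, A ^ (s * j) * g (T^[s * j] y)‖ ^ 2 with hD
  have hTm : ∀ k, Measurable (T^[k]) := fun k => hT.measurable.iterate k
  have hgm : ∀ k, Measurable (fun x => g (T^[k] x)) := fun k => hg.comp (hTm k)
  have hDm : Measurable D := by
    refine (Measurable.norm ?_).pow_const 2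
    exact Measurable.const_mul (Finset.measurable_sum _ fun j _ => (hgm _).const_mul _) _
  have hD1 : ∀ y, ‖D y‖ ≤ 1 := by
    intro y
    simp only [hD]
    rw [Real.norm_of_nonneg (by positivity)]
    refine pow_le_one₀ (norm_nonneg _) ?_
    rw [norm_mul, norm_inv, Complex.norm_natCast]
    have hJ0 : (0 : ℝ) < J := by exact_mod_cast hJ
    calc (J : ℝ)⁻¹ * ‖∑ j ∈ range J, A ^ (s * j) * g (T^[s * j] y)‖
        ≤ (J : ℝ)⁻¹ * ∑ j ∈ range J, (1 : ℝ) := by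
          gcongr
          refine (norm_sum_le _ _).trans (Finset.sum_le_sum fun j _ => ?_)
          rw [norm_mul, norm_pow, hA, one_pow, one_mul]
          exact hg1 _
      _ = 1 := by simp; field_simp
  have hDint : ∀ k, Integrable (fun x => D (T^[k] x)) μ := fun k =>
    integrable_of_bdd (hDm.comp (hTm k)) 1 fun x => hD1 _
  have hDinv : ∀ k, ∫ x, D (T^[k] x) ∂μ = ∫ x, D x ∂μ := fun k =>
    integral_comp_mp (hT.iterate k) hDm
  have hDval : ∫ x, D x ∂μ = ‖tavg (U ^ s) (A ^ s) J x0‖ ^ 2 := by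
    rw [norm_sq_eq]
    refine integral_congr_ae ?_
    have h1 : ∀ j : ℕ, ⇑(((U ^ s) ^ j) x0) =ᵐ[μ] fun x => g (T^[s * j] x) := by
      intro j
      rw [← pow_mul, hU, hx0, koop_pow_toLp]
      exact MemLp.coeFn_toLp _
    have h4 : ∀ᵐ x ∂μ, ∀ j : ℕ, ((A ^ s) ^ j • ((U ^ s) ^ j) x0 : Lp ℂ 2 μ) x =
        A ^ (s * j) * g (T^[s * j] x) := by
      rw [ae_all_iff]; intro j
      filter_upwards [h1 j, Lp.coeFn_smul ((A ^ s) ^ j) (((U ^ s) ^ j) x0)] with x g1 g2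
      rw [g2, Pi.smul_apply, g1, smul_eq_mul, pow_mul]
    unfold tavg
    filter_upwards [h4, Lp.coeFn_smul ((J : ℂ)⁻¹) (∑ n ∈ range J, (A ^ s) ^ n • ((U ^ s) ^ n) x0),
      Lp.coeFn_finsetSum (range J) (fun n => (A ^ s) ^ n • ((U ^ s) ^ n) x0)] with x g1 g2 g3
    rw [g2, Pi.smul_apply, g3, Finset.sum_apply, smul_eq_mul]
    simp only [hD]
    congr 3
    exact Finset.sum_congr rfl fun j _ => (g1 j).symm
  have pt : ∀ x, ‖bavg N (fun m n => (A ^ (ψ m n) * g (T^[ψ m n] x)) * v (χ m n) x)‖ ^ 2 ≤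
      2 * (2 * B₂ / N) ^ 2 + 2 * (((N : ℝ) ^ 2)⁻¹ * ∑ m ∈ range N, ∑ n ∈ range N,
        D (T^[ψ m n + c₂] x)) := by
    intro x
    have := det_two ψ χ J hJ s α₂ β₂ c₂ cχ B₂ hB₂ hψ hχ (fun k => A ^ k * g (T^[k] x))
      (fun k => v k x) (fun k => by rw [norm_mul, norm_pow, hA, one_pow, one_mul]; exact hg1 _)
      (fun k => hv1 k x) N hN1
    refine this.trans (le_of_eq ?_)
    congr 3
    refine Finset.sum_congr rfl fun m _ => Finset.sum_congr rfl fun n _ => ?_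
    simp only [hD]
    have e1 : ∑ j ∈ range J, A ^ (ψ m n + c₂ + s * j) * g (T^[ψ m n + c₂ + s * j] x) =
        A ^ (ψ m n + c₂) * ∑ j ∈ range J, A ^ (s * j) * g (T^[s * j] (T^[ψ m n + c₂] x)) := by
      rw [Finset.mul_sum]
      refine Finset.sum_congr rfl fun j _ => ?_
      rw [← Function.iterate_add_apply, add_comm (s * j), pow_add]
      ring
    rw [e1, mul_left_comm, norm_mul, norm_pow, hA, one_pow, one_mul]
  have hLm : Measurable (fun x => ‖bavg N (fun m n => (A ^ (ψ m n) * g (T^[ψ m n] x)) *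
      v (χ m n) x)‖ ^ 2) := by
    refine (Measurable.norm ?_).pow_const 2
    unfold bavg
    refine Measurable.const_mul ?_ _
    exact Finset.measurable_sum _ fun m _ => Finset.measurable_sum _ fun n _ =>
      ((hgm _).const_mul _).mul (hv _)
  have hL1 : ∀ x, ‖(‖bavg N (fun m n => (A ^ (ψ m n) * g (T^[ψ m n] x)) *
      v (χ m n) x)‖ ^ 2 : ℝ)‖ ≤ 1 := by
    intro x
    rw [Real.norm_of_nonneg (by positivity)]
    refine pow_le_one₀ (norm_nonneg _) (norm_bavg_le_one N _ fun m n => ?_)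
    rw [norm_mul, norm_mul, norm_pow, hA, one_pow, one_mul]
    simpa using mul_le_mul (hg1 (T^[ψ m n] x)) (hv1 (χ m n) x) (norm_nonneg _) zero_le_one
  have hRint : Integrable (fun x => 2 * (2 * (B₂ : ℝ) / N) ^ 2 + 2 * (((N : ℝ) ^ 2)⁻¹ *
      ∑ m ∈ range N, ∑ n ∈ range N, D (T^[ψ m n + c₂] x))) μ := by
    refine (integrable_const _).add (Integrable.const_mul (Integrable.const_mul ?_ _) _)
    exact integrable_finsetSum _ fun m _ => integrable_finsetSum _ fun n _ => hDint _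
  refine (integral_mono (integrable_of_bdd hLm 1 hL1) hRint pt).trans ?_
  rw [integral_add (integrable_const _) (Integrable.const_mul (Integrable.const_mul
    (integrable_finsetSum _ fun m _ => integrable_finsetSum _ fun n _ => hDint _) _) _),
    integral_const, integral_const_mul, integral_const_mul,
    integral_finsetSum _ fun m _ => integrable_finsetSum _ fun n _ => hDint _]
  have h5 : ∀ m ∈ range N, ∫ x, ∑ n ∈ range N, D (T^[ψ m n + c₂] x) ∂μ = N * ∫ x, D x ∂μ := by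
    intro m _
    rw [integral_finsetSum _ fun n _ => hDint _]
    simp only [hDinv, sum_const, card_range, nsmul_eq_mul]
  rw [Finset.sum_congr rfl h5]
  simp only [sum_const, card_range, nsmul_eq_mul, probReal_univ, smul_eq_mul, one_mul]
  rw [hDval]
  have h6 : ((N : ℝ) ^ 2)⁻¹ * (N * (N * ‖tavg (U ^ s) (A ^ s) J x0‖ ^ 2)) =
      ‖tavg (U ^ s) (A ^ s) J x0‖ ^ 2 := by field_simp
  rw [h6]
  linarith

end main

section main2

variable {Ω : Type*} [MeasurableSpace Ω] {μ : Measure Ω} [IsProbabilityMeasure μ]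

set_option maxHeartbeats 4000000 in
theorem main_absG {T S R : Ω → Ω} (hT : MeasurePreserving T μ μ) (hS : MeasurePreserving S μ μ)
    (hR : MeasurePreserving R μ μ) (φ ψ χ : ℕ → ℕ → ℕ)
    (hctl : ∀ (g : Ω → ℂ) (hg : Measurable g) (hg1 : ∀ x, ‖g x‖ ≤ 1),
      (memLp_bdd (μ := μ) hg hg1).toLp g ∈ (EigSpan (koop hT))ᗮ →
      ∀ ε > (0 : ℝ), ∃ N₀ : ℕ, ∀ N ≥ N₀, ∀ (u v : ℕ → Ω → ℂ),
      (∀ k, Measurable (u k)) → (∀ k x, ‖u k x‖ ≤ 1) →
      (∀ k, Measurable (v k)) → (∀ k x, ‖v k x‖ ≤ 1) →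
      ∫ x, ‖bavg N (fun m n => g (T^[φ m n] x) * u (ψ m n) x * v (χ m n) x)‖ ^ 2 ∂μ ≤ ε)
    (habs : ∀ α β : ℂ, ‖α‖ = 1 → ‖β‖ = 1 → ∃ A B : ℂ, ‖A‖ = 1 ∧ ‖B‖ = 1 ∧
      ∀ m n, α ^ m * β ^ n = A ^ (ψ m n) * B ^ (χ m n))
    (hφ : CharForm φ) (hψ : CharForm ψ) (hχ : CharForm χ)
    (s₁ : ℕ) (hs₁ : 1 ≤ s₁) (hsh₁ : ShiftForm s₁ ψ χ)
    (s₂ : ℕ) (hs₂ : 1 ≤ s₂) (hsh₂ : ShiftForm s₂ χ ψ)
    {A : Set Ω} (hA : MeasurableSet A) (hμA : μ A ≠ 0) :
    ∃ m n : ℕ, 1 ≤ m ∧ 1 ≤ n ∧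
      μ (A ∩ T^[φ m n] ⁻¹' A ∩ S^[ψ m n] ⁻¹' A ∩ R^[χ m n] ⁻¹' A) ≠ 0 := by
  by_contra hcon
  push Not at hcon
  obtain ⟨fT, hTm, hT0, hT1, hTE, hTo, hTp⟩ := compact_part hT hA
  obtain ⟨fS, hSm, hS0, hS1, hSE, hSo, hSp⟩ := compact_part hS hA
  obtain ⟨fR, hRm, hR0, hR1, hRE, hRo, hRp⟩ := compact_part hR hA
  set F : Ω → ℂ := cind A with hF
  have hFm : Measurable F := cind_meas hA
  have hF1 : ∀ x, ‖F x‖ ≤ 1 := cind_norm A
  set a : Ω → ℂ := fun x => (fT x : ℂ) with ha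
  set b : Ω → ℂ := fun x => (fS x : ℂ) with hb
  set c : Ω → ℂ := fun x => (fR x : ℂ) with hc
  have ham : Measurable a := Complex.measurable_ofReal.comp hTm
  have hbm : Measurable b := Complex.measurable_ofReal.comp hSm
  have hcm : Measurable c := Complex.measurable_ofReal.comp hRm
  have ha1 : ∀ x, ‖a x‖ ≤ 1 := fun x => by
    simp only [ha, Complex.norm_real, Real.norm_of_nonneg (hT0 x)]; exact hT1 x
  have hb1 : ∀ x, ‖b x‖ ≤ 1 := fun x => by
    simp only [hb, Complex.norm_real, Real.norm_of_nonneg (hS0 x)]; exact hS1 x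
  have hc1 : ∀ x, ‖c x‖ ≤ 1 := fun x => by
    simp only [hc, Complex.norm_real, Real.norm_of_nonneg (hR0 x)]; exact hR1 x
  set ga : Ω → ℂ := fun x => F x - a x with hga
  set gb : Ω → ℂ := fun x => F x - b x with hgb
  set gc : Ω → ℂ := fun x => F x - c x with hgc
  have hgam : Measurable ga := hFm.sub ham
  have hgbm : Measurable gb := hFm.sub hbm
  have hgcm : Measurable gc := hFm.sub hcm
  have hga1 : ∀ x, ‖ga x‖ ≤ 1 := fun x => diff_norm (cind_I01 A x) (hT0 x) (hT1 x)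
  have hgb1 : ∀ x, ‖gb x‖ ≤ 1 := fun x => diff_norm (cind_I01 A x) (hS0 x) (hS1 x)
  have hgc1 : ∀ x, ‖gc x‖ ≤ 1 := fun x => diff_norm (cind_I01 A x) (hR0 x) (hR1 x)
  have haE : (memLp_bdd (μ := μ) ham ha1).toLp a ∈ Ec (koop hT) := hTE _
  have hbE : (memLp_bdd (μ := μ) hbm hb1).toLp b ∈ Ec (koop hS) := hSE _
  have hcE : (memLp_bdd (μ := μ) hcm hc1).toLp c ∈ Ec (koop hR) := hRE _
  have hgao : (memLp_bdd (μ := μ) hgam hga1).toLp ga ∈ (EigSpan (koop hT))ᗮ := hTo _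
  have hgbo : (memLp_bdd (μ := μ) hgbm hgb1).toLp gb ∈ (EigSpan (koop hS))ᗮ := hSo _
  have hgco : (memLp_bdd (μ := μ) hgcm hgc1).toLp gc ∈ (EigSpan (koop hR))ᗮ := hRo _
  have hTi : ∀ k, Measurable (T^[k]) := fun k => hT.measurable.iterate k
  have hSi : ∀ k, Measurable (S^[k]) := fun k => hS.measurable.iterate k
  have hRi : ∀ k, Measurable (R^[k]) := fun k => hR.measurable.iterate k
  -- the main constant
  set c0 : ℝ := ∫ x, (F x).re * (fT x * fS x * fR x) ∂μ with hc0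
  have hFre : ∀ x, (F x).re = A.indicator (fun _ => (1 : ℝ)) x := by
    intro x
    simp only [hF, cind]
    by_cases hx : x ∈ A
    · rw [Set.indicator_of_mem hx, Set.indicator_of_mem hx]; simp
    · rw [Set.indicator_of_notMem hx, Set.indicator_of_notMem hx]; simp
  have hFre0 : ∀ x, 0 ≤ (F x).re := fun x => (cind_I01 A x).1
  have hFre1 : ∀ x, (F x).re ≤ 1 := fun x => (cind_I01 A x).2.1
  have hprod0 : ∀ x, 0 ≤ (F x).re * (fT x * fS x * fR x) := fun x =>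
    mul_nonneg (hFre0 x) (mul_nonneg (mul_nonneg (hT0 x) (hS0 x)) (hR0 x))
  have hprod1 : ∀ x, (F x).re * (fT x * fS x * fR x) ≤ 1 := fun x => by
    have h1 : fT x * fS x ≤ 1 := mul_le_one₀ (hT1 x) (hS0 x) (hS1 x)
    have h2 : fT x * fS x * fR x ≤ 1 := mul_le_one₀ h1 (hR0 x) (hR1 x)
    exact mul_le_one₀ (hFre1 x) (mul_nonneg (mul_nonneg (hT0 x) (hS0 x)) (hR0 x)) h2
  have hprodm : Measurable (fun x => (F x).re * (fT x * fS x * fR x)) :=
    (Complex.measurable_re.comp hFm).mul ((hTm.mul hSm).mul hRm)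
  have hprodint : Integrable (fun x => (F x).re * (fT x * fS x * fR x)) μ :=
    integrable_of_bdd hprodm 1 fun x => by
      rw [Real.norm_of_nonneg (hprod0 x)]; exact hprod1 x
  have hc0pos : 0 < c0 := by
    rw [hc0, integral_pos_iff_support_of_nonneg hprod0 hprodint]
    have hsub : ∀ᵐ x ∂μ, x ∈ A →
        x ∈ Function.support (fun x => (F x).re * (fT x * fS x * fR x)) := by
      filter_upwards [hTp, hSp, hRp] with x h1 h2 h3 hx
      rw [Function.mem_support, hFre, Set.indicator_of_mem hx, one_mul]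
      have := mul_pos (mul_pos (h1 hx) (h2 hx)) (h3 hx)
      exact this.ne'
    exact lt_of_lt_of_le (pos_iff_ne_zero.2 hμA) (measure_mono_ae hsub)
  -- finite eigen-approximations and weights
  set δ : ℝ := c0 / 16 with hδ
  have hδ0 : 0 < δ := by positivity
  obtain ⟨z₁, ⟨ι₁, _, e₁, l₁, hl₁, he₁, hz₁⟩, hyz₁⟩ :=
    approx_of_closure (koop hT) _ haE (δ / 8) (by positivity)
  obtain ⟨z₂, ⟨ι₂, _, e₂, l₂, hl₂, he₂, hz₂⟩, hyz₂⟩ :=
    approx_of_closure (koop hS) _ hbE (δ / 8) (by positivity)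
  obtain ⟨z₃, ⟨ι₃, _, e₃, l₃, hl₃, he₃, hz₃⟩, hyz₃⟩ :=
    approx_of_closure (koop hR) _ hcE (δ / 8) (by positivity)
  choose a₁ b₁ ha₁ hb₁ hab₁ using fun i => hφ (l₁ i) (hl₁ i)
  choose a₂ b₂ ha₂ hb₂ hab₂ using fun i => hψ (l₂ i) (hl₂ i)
  choose a₃ b₃ ha₃ hb₃ hab₃ using fun i => hχ (l₃ i) (hl₃ i)
  set Se : ℝ := ∑ i, ‖e₁ i‖ + ∑ i, ‖e₂ i‖ + ∑ i, ‖e₃ i‖ with hSe
  have hn1 : 0 ≤ ∑ i, ‖e₁ i‖ := Finset.sum_nonneg fun i _ => norm_nonneg _
  have hn2 : 0 ≤ ∑ i, ‖e₂ i‖ := Finset.sum_nonneg fun i _ => norm_nonneg _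
  have hn3 : 0 ≤ ∑ i, ‖e₃ i‖ := Finset.sum_nonneg fun i _ => norm_nonneg _
  have hSe0 : 0 ≤ Se := by positivity
  set t : ℝ := δ / (3 * (Se + 1)) with ht
  have ht0 : 0 < t := by positivity
  have htS : t * Se ≤ δ / 3 := by
    rw [ht, div_mul_eq_mul_div, div_le_div_iff₀ (by positivity) (by positivity)]
    nlinarith
  obtain ⟨W, M, hM, hW0, hW1, hWe, hWM, hWdev⟩ := weights_exist
    (a := Sum.elim a₁ (Sum.elim a₂ a₃)) (b := Sum.elim b₁ (Sum.elim b₂ b₃))
    (by rintro (i | i | i) <;> simp [ha₁, ha₂, ha₃])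
    (by rintro (i | i | i) <;> simp [hb₁, hb₂, hb₃]) (t ^ 2) (by positivity)
  have ev1 := disp_avg (koop hT) e₁ l₁ he₁ _ δ hδ0 (by rw [← hz₁]; exact hyz₁) φ W M hM hW0 hWM t
    ht0 (by nlinarith) (fun i => by simpa [hab₁] using hWdev (Sum.inl i))
  have ev2 := disp_avg (koop hS) e₂ l₂ he₂ _ δ hδ0 (by rw [← hz₂]; exact hyz₂) ψ W M hM hW0 hWM t
    ht0 (by nlinarith) (fun i => by simpa [hab₂] using hWdev (Sum.inr (Sum.inl i)))
  have ev3 := disp_avg (koop hR) e₃ l₃ he₃ _ δ hδ0 (by rw [← hz₃]; exact hyz₃) χ W M hM hW0 hWM t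
    ht0 (by nlinarith) (fun i => by simpa [hab₃] using hWdev (Sum.inr (Sum.inr i)))
  -- error term one
  set G1 : ℕ → ℕ → Ω → ℂ := fun m n x =>
    ga (T^[φ m n] x) * F (S^[ψ m n] x) * F (R^[χ m n] x) with hG1
  have hG1m : ∀ m n, Measurable (G1 m n) := fun m n =>
    ((hgam.comp (hTi _)).mul (hFm.comp (hSi _))).mul (hFm.comp (hRi _))
  have hG1b : ∀ m n x, ‖G1 m n x‖ ≤ 1 := by
    intro m n x
    simp only [hG1, norm_mul]
    have := mul_le_mul (mul_le_mul (hga1 (T^[φ m n] x)) (hF1 (S^[ψ m n] x)) (norm_nonneg _)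
      zero_le_one) (hF1 (R^[χ m n] x)) (norm_nonneg _) (by norm_num)
    simpa using this
  have ev4 : ∀ᶠ N in atTop, ∫ x, ‖bavg N (fun m n => (W m n : ℂ) * G1 m n x)‖ ∂μ ≤ δ * M := by
    refine ev_int_norm (fun N => bavg_meas N _ fun m n => (hG1m m n).const_mul _) 1
      (fun N x => norm_bavg_le_C N _ 1 zero_le_one fun m n => ?_) ?_ _ (by positivity)
    · rw [norm_mul, Complex.norm_real, Real.norm_of_nonneg (hW0 m n)]
      exact mul_le_one₀ (hW1 m n) (norm_nonneg _) (hG1b m n x)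
    · refine exp_int _ hWe G1 hG1m 1 zero_le_one hG1b ?_
      intro α β hα hβ ε hε
      obtain ⟨A', B', hA', hB', hAB⟩ := habs α β hα hβ
      obtain ⟨N₀, hN₀⟩ := hctl ga hgam hga1 hgao ε hε
      filter_upwards [eventually_ge_atTop N₀] with N hN
      have := hN₀ N hN (fun k x => A' ^ k * F (S^[k] x)) (fun k x => B' ^ k * F (R^[k] x))
        (fun k => (hFm.comp (hSi _)).const_mul _)
        (fun k x => by rw [norm_mul, norm_pow, hA', one_pow, one_mul]; exact hF1 _)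
        (fun k => (hFm.comp (hRi _)).const_mul _)
        (fun k x => by rw [norm_mul, norm_pow, hB', one_pow, one_mul]; exact hF1 _)
      refine le_trans (le_of_eq ?_) this
      refine integral_congr_ae (Eventually.of_forall fun x => ?_)
      simp only [hG1]
      congr 3
      funext m n
      rw [hAB]; ring
  -- error term two
  set G2 : ℕ → ℕ → Ω → ℂ := fun m n x =>
    gb (S^[ψ m n] x) * F (R^[χ m n] x) + b (S^[ψ m n] x) * gc (R^[χ m n] x) with hG2
  have hG2m : ∀ m n, Measurable (G2 m n) := fun m n =>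
    ((hgbm.comp (hSi _)).mul (hFm.comp (hRi _))).add ((hbm.comp (hSi _)).mul (hgcm.comp (hRi _)))
  have hG2b : ∀ m n x, ‖G2 m n x‖ ≤ 2 := by
    intro m n x
    simp only [hG2]
    refine (norm_add_le _ _).trans ?_
    rw [norm_mul, norm_mul]
    have h1 := mul_le_mul (hgb1 (S^[ψ m n] x)) (hF1 (R^[χ m n] x)) (norm_nonneg _) zero_le_one
    have h2 := mul_le_mul (hb1 (S^[ψ m n] x)) (hgc1 (R^[χ m n] x)) (norm_nonneg _) zero_le_one
    linarith
  have hG2lim : ∀ α β : ℂ, ‖α‖ = 1 → ‖β‖ = 1 → ∀ ε > (0 : ℝ), ∀ᶠ N in atTop,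
      ∫ x, ‖bavg N (fun m n => (α ^ m * β ^ n) * G2 m n x)‖ ^ 2 ∂μ ≤ ε := by
    intro α β hα hβ ε hε
    obtain ⟨A', B', hA', hB', hAB⟩ := habs α β hα hβ
    obtain ⟨N₁, hN₁⟩ := control_twoG hS hgbm hgb1 hgbo s₁ hs₁ ψ χ hsh₁ A' hA' (ε / 4)
      (by positivity)
    obtain ⟨N₂, hN₂⟩ := control_twoG hR hgcm hgc1 hgco s₂ hs₂ χ ψ hsh₂ B' hB' (ε / 4)
      (by positivity)
    filter_upwards [eventually_ge_atTop N₁, eventually_ge_atTop N₂] with N h1 h2
    have k1 := hN₁ N h1 (fun k x => B' ^ k * F (R^[k] x)) (fun k => (hFm.comp (hRi _)).const_mul _)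
        (fun k x => by rw [norm_mul, norm_pow, hB', one_pow, one_mul]; exact hF1 _)
    have k2 := hN₂ N h2 (fun k x => A' ^ k * b (S^[k] x)) (fun k => (hbm.comp (hSi _)).const_mul _)
        (fun k x => by rw [norm_mul, norm_pow, hA', one_pow, one_mul]; exact hb1 _)
    set H1 : Ω → ℂ := fun x => bavg N (fun m n => (A' ^ (ψ m n) * gb (S^[ψ m n] x)) *
      (B' ^ (χ m n) * F (R^[χ m n] x))) with hH1
    set H2 : Ω → ℂ := fun x => bavg N (fun m n => (B' ^ (χ m n) * gc (R^[χ m n] x)) *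
      (A' ^ (ψ m n) * b (S^[ψ m n] x))) with hH2
    have hH1m : Measurable H1 := bavg_meas N _ fun m n =>
      ((hgbm.comp (hSi _)).const_mul _).mul ((hFm.comp (hRi _)).const_mul _)
    have hH2m : Measurable H2 := bavg_meas N _ fun m n =>
      ((hgcm.comp (hRi _)).const_mul _).mul ((hbm.comp (hSi _)).const_mul _)
    have hH1b : ∀ x, ‖H1 x‖ ≤ 1 := fun x => norm_bavg_le_C N _ 1 zero_le_one fun m n => by
      rw [norm_mul, norm_mul, norm_mul, norm_pow, norm_pow, hA', hB', one_pow, one_pow, one_mul,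
        one_mul]
      exact mul_le_one₀ (hgb1 _) (norm_nonneg _) (hF1 _)
    have hH2b : ∀ x, ‖H2 x‖ ≤ 1 := fun x => norm_bavg_le_C N _ 1 zero_le_one fun m n => by
      rw [norm_mul, norm_mul, norm_mul, norm_pow, norm_pow, hA', hB', one_pow, one_pow, one_mul,
        one_mul]
      exact mul_le_one₀ (hgc1 _) (norm_nonneg _) (hb1 _)
    have hi1 : Integrable (fun x => ‖H1 x‖ ^ 2) μ :=
      integrable_of_bdd (hH1m.norm.pow_const 2) 1 fun x => by
        rw [Real.norm_of_nonneg (by positivity)]; exact pow_le_one₀ (norm_nonneg _) (hH1b x)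
    have hi2 : Integrable (fun x => ‖H2 x‖ ^ 2) μ :=
      integrable_of_bdd (hH2m.norm.pow_const 2) 1 fun x => by
        rw [Real.norm_of_nonneg (by positivity)]; exact pow_le_one₀ (norm_nonneg _) (hH2b x)
    have hpt : ∀ x, ‖bavg N (fun m n => (α ^ m * β ^ n) * G2 m n x)‖ ^ 2 ≤
        2 * ‖H1 x‖ ^ 2 + 2 * ‖H2 x‖ ^ 2 := by
      intro x
      have e1 : bavg N (fun m n => (α ^ m * β ^ n) * G2 m n x) = H1 x + H2 x := by
        simp only [hH1, hH2]
        rw [← bavg_add]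
        congr 1
        funext m n
        simp only [hG2]
        rw [hAB]; ring
      rw [e1]
      have := pow_le_pow_left₀ (norm_nonneg _) (norm_add_le (H1 x) (H2 x)) 2
      nlinarith [sq_nonneg (‖H1 x‖ - ‖H2 x‖)]
    have hLi : Integrable (fun x => ‖bavg N (fun m n => (α ^ m * β ^ n) * G2 m n x)‖ ^ 2) μ := by
      refine integrable_of_bdd ((bavg_meas N _ fun m n =>
        (hG2m m n).const_mul _).norm.pow_const 2) 4 fun x => ?_
      rw [Real.norm_of_nonneg (by positivity)]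
      refine (hpt x).trans ?_
      have q1 := pow_le_one₀ (norm_nonneg _) (hH1b x) (n := 2)
      have q2 := pow_le_one₀ (norm_nonneg _) (hH2b x) (n := 2)
      linarith
    have hRi' : Integrable (fun x => 2 * ‖H1 x‖ ^ 2 + 2 * ‖H2 x‖ ^ 2) μ :=
      (hi1.const_mul _).add (hi2.const_mul _)
    refine (integral_mono hLi hRi' hpt).trans ?_
    rw [integral_add (hi1.const_mul _) (hi2.const_mul _), integral_const_mul, integral_const_mul]
    linarith
  have ev5 := err_compact hT φ hφ ham ha1 haE G2 hG2m hG2b hG2lim W M hM hW0 hW1 hWe hWM δ hδ0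
  -- choose N
  have hMhalf : ∀ᶠ N in atTop, M / 2 < ravg N W := hWM.eventually (lt_mem_nhds (by linarith))
  have hNlim : ∀ᶠ N : ℕ in atTop, 2 / (N : ℝ) < δ * M :=
    (tendsto_const_div_atTop_nhds_zero_nat 2).eventually (gt_mem_nhds (by positivity))
  obtain ⟨N, hN1, hN2, hN3, hN4, hN5, hN6, hN7, hN8⟩ := (ev1.and (ev2.and (ev3.and (ev4.and
    (ev5.and (hMhalf.and (hNlim.and (eventually_ge_atTop 1)))))))).exists
  have hN0 : (0 : ℝ) < N := by exact_mod_cast hN8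
  -- the correlations
  set P : ℕ → ℕ → ℂ := fun m n =>
    ∫ x, F x * (F (T^[φ m n] x) * F (S^[ψ m n] x) * F (R^[χ m n] x)) ∂μ with hP
  set Q : ℕ → ℕ → ℂ := fun m n =>
    ∫ x, F x * (a (T^[φ m n] x) * b (S^[ψ m n] x) * c (R^[χ m n] x)) ∂μ with hQ
  have hP1 : ∀ m n, ‖P m n‖ ≤ 1 := by
    intro m n
    simp only [hP]
    refine (norm_integral_le_integral_norm _).trans ?_
    have : ∫ x, ‖F x * (F (T^[φ m n] x) * F (S^[ψ m n] x) * F (R^[χ m n] x))‖ ∂μ ≤
        ∫ x, (1 : ℝ) ∂μ := by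
      refine integral_mono_of_nonneg (Eventually.of_forall fun x => norm_nonneg _)
        (integrable_const _) (Eventually.of_forall fun x => ?_)
      simp only [norm_mul]
      exact mul_le_one₀ (hF1 _) (by positivity) (mul_le_one₀ (mul_le_one₀ (hF1 _)
        (norm_nonneg _) (hF1 _)) (norm_nonneg _) (hF1 _))
    simpa using this
  have hP0 : ∀ m n, 1 ≤ m → 1 ≤ n → P m n = 0 := by
    intro m n hm hn
    have h1 := hcon m n hm hn
    have h2 := measure_eq_zero_iff_ae_notMem.1 h1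
    simp only [hP]
    have : ∫ x, F x * (F (T^[φ m n] x) * F (S^[ψ m n] x) * F (R^[χ m n] x)) ∂μ =
        ∫ x, (0 : ℂ) ∂μ := by
      refine integral_congr_ae ?_
      filter_upwards [h2] with x hx
      simp only [hF, cind]
      by_cases q1 : x ∈ A
      · by_cases q2 : T^[φ m n] x ∈ A
        · by_cases q3 : S^[ψ m n] x ∈ A
          · by_cases q4 : R^[χ m n] x ∈ A
            · exact absurd ⟨⟨⟨q1, q2⟩, q3⟩, q4⟩ hx
            · rw [Set.indicator_of_notMem q4]; ring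
          · rw [Set.indicator_of_notMem q3]; ring
        · rw [Set.indicator_of_notMem q2]; ring
      · rw [Set.indicator_of_notMem q1]; ring
    rw [this]; simp
  have hX : ‖bavg N (fun m n => (W m n : ℂ) * P m n)‖ ≤ 2 / N := by
    refine (norm_bavg_le _ _).trans ?_
    have h1 : ∀ m n, ‖(W m n : ℂ) * P m n‖ ≤ (if m = 0 then 1 else 0) + (if n = 0 then 1 else 0) := by
      intro m n
      rw [norm_mul, Complex.norm_real, Real.norm_of_nonneg (hW0 m n)]
      have h2 : W m n * ‖P m n‖ ≤ 1 := mul_le_one₀ (hW1 m n) (norm_nonneg _) (hP1 m n)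
      by_cases q1 : m = 0
      · rw [if_pos q1]
        split_ifs <;> linarith
      · by_cases q2 : n = 0
        · rw [if_pos q2]
          split_ifs; linarith
        · rw [hP0 m n (by omega) (by omega), norm_zero, mul_zero, if_neg q1, if_neg q2, add_zero]
    calc ((N : ℝ) ^ 2)⁻¹ * ∑ m ∈ range N, ∑ n ∈ range N, ‖(W m n : ℂ) * P m n‖
        ≤ ((N : ℝ) ^ 2)⁻¹ * ∑ m ∈ range N, ∑ n ∈ range N,
          ((if m = 0 then 1 else 0) + (if n = 0 then 1 else 0) : ℝ) := by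
          gcongr with m _ n _; exact h1 m n
      _ = ((N : ℝ) ^ 2)⁻¹ * (N * 1 + N * 1) := by
          have hmem : 0 ∈ range N := mem_range.2 hN8
          simp only [Finset.sum_add_distrib, Finset.sum_const, card_range, nsmul_eq_mul,
            Finset.sum_ite_eq', hmem, if_true, ← Finset.mul_sum]
      _ = 2 / N := by field_simp; ring
  -- X - Y
  have hint : ∀ m n, ∀ f₁ f₂ f₃ : Ω → ℂ, Measurable f₁ → Measurable f₂ → Measurable f₃ →
      (∀ x, ‖f₁ x‖ ≤ 1) → (∀ x, ‖f₂ x‖ ≤ 1) → (∀ x, ‖f₃ x‖ ≤ 1) →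
      Integrable (fun x => F x * (f₁ (T^[φ m n] x) * f₂ (S^[ψ m n] x) * f₃ (R^[χ m n] x))) μ := by
    intro m n f₁ f₂ f₃ m₁ m₂ m₃ n₁ n₂ n₃
    refine Integrable.of_bound (hFm.mul (((m₁.comp (hTi _)).mul (m₂.comp (hSi _))).mul
      (m₃.comp (hRi _)))).aestronglyMeasurable 1 (Eventually.of_forall fun x => ?_)
    simp only [norm_mul]
    exact mul_le_one₀ (hF1 _) (by positivity) (mul_le_one₀ (mul_le_one₀ (n₁ _)
        (norm_nonneg _) (n₂ _)) (norm_nonneg _) (n₃ _))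
  have hXY : ‖bavg N (fun m n => (W m n : ℂ) * P m n) - bavg N (fun m n => (W m n : ℂ) * Q m n)‖ ≤
      2 * (δ * M) := by
    have e1 : bavg N (fun m n => (W m n : ℂ) * P m n) - bavg N (fun m n => (W m n : ℂ) * Q m n) =
        ∫ x, F x * (bavg N (fun m n => (W m n : ℂ) * G1 m n x) +
          bavg N (fun m n => (W m n : ℂ) * (a (T^[φ m n] x) * G2 m n x))) ∂μ := by
      rw [← bavg_sub]
      have e2 : ∀ m n, (W m n : ℂ) * P m n - (W m n : ℂ) * Q m n =
          ∫ x, (W m n : ℂ) * (F x * (G1 m n x + a (T^[φ m n] x) * G2 m n x)) ∂μ := by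
        intro m n
        rw [← mul_sub, integral_const_mul]
        congr 1
        simp only [hP, hQ]
        rw [← integral_sub (hint m n F F F hFm hFm hFm hF1 hF1 hF1)
          (hint m n a b c ham hbm hcm ha1 hb1 hc1)]
        refine integral_congr_ae (Eventually.of_forall fun x => ?_)
        simp only [hG1, hG2, hga, hgb, hgc]
        ring
      simp_rw [e2]
      have hi : ∀ m n, Integrable (fun x => (W m n : ℂ) *
          (F x * (G1 m n x + a (T^[φ m n] x) * G2 m n x))) μ := by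
        intro m n
        refine Integrable.of_bound (Measurable.const_mul (hFm.mul ((hG1m m n).add
          ((ham.comp (hTi _)).mul (hG2m m n)))) _).aestronglyMeasurable 3
          (Eventually.of_forall fun x => ?_)
        rw [norm_mul, norm_mul, Complex.norm_real, Real.norm_of_nonneg (hW0 m n)]
        have q1 : ‖G1 m n x + a (T^[φ m n] x) * G2 m n x‖ ≤ 3 := by
          refine (norm_add_le _ _).trans ?_
          rw [norm_mul (a (T^[φ m n] x))]
          have := mul_le_mul (ha1 (T^[φ m n] x)) (hG2b m n x) (norm_nonneg _) zero_le_one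
          linarith [hG1b m n x]
        have q2 := mul_le_mul (hF1 x) q1 (norm_nonneg _) zero_le_one
        have q3 := mul_le_mul (hW1 m n) q2 (by positivity) zero_le_one
        linarith
      rw [← bavg_integral N _ hi]
      refine integral_congr_ae (Eventually.of_forall fun x => ?_)
      simp only
      rw [← bavg_add, ← bavg_smul]
      congr 1
      funext m n; ring
    rw [e1]
    refine (norm_integral_le_integral_norm _).trans ?_
    have iB1 : Integrable (fun x => ‖bavg N (fun m n => (W m n : ℂ) * G1 m n x)‖) μ :=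
      integrable_of_bdd (bavg_meas N _ fun m n => (hG1m m n).const_mul _).norm 1 fun x => by
        rw [norm_norm]
        refine norm_bavg_le_C N _ 1 zero_le_one fun m n => ?_
        rw [norm_mul, Complex.norm_real, Real.norm_of_nonneg (hW0 m n)]
        exact mul_le_one₀ (hW1 m n) (norm_nonneg _) (hG1b m n x)
    have iB2 : Integrable (fun x => ‖bavg N (fun m n => (W m n : ℂ) *
        (a (T^[φ m n] x) * G2 m n x))‖) μ :=
      integrable_of_bdd (bavg_meas N _ fun m n =>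
        ((ham.comp (hTi _)).mul (hG2m m n)).const_mul _).norm 2 fun x => by
        rw [norm_norm]
        refine norm_bavg_le_C N _ 2 (by norm_num) fun m n => ?_
        rw [norm_mul, norm_mul, Complex.norm_real, Real.norm_of_nonneg (hW0 m n)]
        have q2 := mul_le_mul (ha1 (T^[φ m n] x)) (hG2b m n x) (norm_nonneg _) zero_le_one
        have q3 := mul_le_mul (hW1 m n) q2 (by positivity) zero_le_one
        linarith
    have hmono : ∫ x, ‖F x * (bavg N (fun m n => (W m n : ℂ) * G1 m n x) +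
          bavg N (fun m n => (W m n : ℂ) * (a (T^[φ m n] x) * G2 m n x)))‖ ∂μ ≤
        ∫ x, (‖bavg N (fun m n => (W m n : ℂ) * G1 m n x)‖ +
          ‖bavg N (fun m n => (W m n : ℂ) * (a (T^[φ m n] x) * G2 m n x))‖) ∂μ := by
      refine integral_mono_of_nonneg (Eventually.of_forall fun x => norm_nonneg _)
        (iB1.add iB2) (Eventually.of_forall fun x => ?_)
      simp only
      rw [norm_mul]
      refine (mul_le_of_le_one_left (norm_nonneg _) (hF1 x)).trans (norm_add_le _ _)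
    rw [integral_add iB1 iB2] at hmono
    linarith
  -- Y versus c0
  have hc0c : (c0 : ℂ) = ∫ x, F x * (a x * b x * c x) ∂μ := by
    rw [hc0, ← integral_complex_ofReal]
    refine integral_congr_ae (Eventually.of_forall fun x => ?_)
    have : F x = (((F x).re : ℝ) : ℂ) := by
      apply Complex.ext
      · simp
      · simpa using (cind_I01 A x).2.2
    simp only [ha, hb, hc]
    rw [this]
    push_cast
    simp
  have hQc : ∀ m n, ‖Q m n - c0‖ ≤
      ‖(koop hT ^ (φ m n)) ((memLp_bdd (μ := μ) ham ha1).toLp a) -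
        (memLp_bdd (μ := μ) ham ha1).toLp a‖ +
      ‖(koop hS ^ (ψ m n)) ((memLp_bdd (μ := μ) hbm hb1).toLp b) -
        (memLp_bdd (μ := μ) hbm hb1).toLp b‖ +
      ‖(koop hR ^ (χ m n)) ((memLp_bdd (μ := μ) hcm hc1).toLp c) -
        (memLp_bdd (μ := μ) hcm hc1).toLp c‖ := by
    intro m n
    have d1 := disp_int hT (memLp_bdd (μ := μ) ham ha1) (φ m n)
    have d2 := disp_int hS (memLp_bdd (μ := μ) hbm hb1) (ψ m n)
    have d3 := disp_int hR (memLp_bdd (μ := μ) hcm hc1) (χ m n)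
    have iabc : Integrable (fun x => F x * (a x * b x * c x)) μ := by
      refine Integrable.of_bound (hFm.mul ((ham.mul hbm).mul hcm)).aestronglyMeasurable 1
        (Eventually.of_forall fun x => ?_)
      simp only [norm_mul]
      exact mul_le_one₀ (hF1 _) (by positivity) (mul_le_one₀ (mul_le_one₀ (ha1 _)
        (norm_nonneg _) (hb1 _)) (norm_nonneg _) (hc1 _))
    have j1 : Integrable (fun x => ‖a (T^[φ m n] x) - a x‖) μ :=
      integrable_of_bdd ((ham.comp (hTi _)).sub ham).norm 2 fun x => by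
        rw [norm_norm]; exact (norm_sub_le _ _).trans (by linarith [ha1 (T^[φ m n] x), ha1 x])
    have j2 : Integrable (fun x => ‖b (S^[ψ m n] x) - b x‖) μ :=
      integrable_of_bdd ((hbm.comp (hSi _)).sub hbm).norm 2 fun x => by
        rw [norm_norm]; exact (norm_sub_le _ _).trans (by linarith [hb1 (S^[ψ m n] x), hb1 x])
    have j3 : Integrable (fun x => ‖c (R^[χ m n] x) - c x‖) μ :=
      integrable_of_bdd ((hcm.comp (hRi _)).sub hcm).norm 2 fun x => by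
        rw [norm_norm]; exact (norm_sub_le _ _).trans (by linarith [hc1 (R^[χ m n] x), hc1 x])
    rw [hc0c]
    simp only [hQ]
    rw [← integral_sub (hint m n a b c ham hbm hcm ha1 hb1 hc1) iabc]
    refine (norm_integral_le_integral_norm _).trans ?_
    have hmono : ∫ x, ‖F x * (a (T^[φ m n] x) * b (S^[ψ m n] x) * c (R^[χ m n] x)) -
        F x * (a x * b x * c x)‖ ∂μ ≤ ∫ x, (‖a (T^[φ m n] x) - a x‖ + ‖b (S^[ψ m n] x) - b x‖ +
          ‖c (R^[χ m n] x) - c x‖) ∂μ := by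
      refine integral_mono_of_nonneg (Eventually.of_forall fun x => norm_nonneg _)
        ((j1.add j2).add j3) (Eventually.of_forall fun x => ?_)
      simp only
      rw [← mul_sub, norm_mul]
      refine (mul_le_of_le_one_left (norm_nonneg _) (hF1 x)).trans ?_
      have e1 : a (T^[φ m n] x) * b (S^[ψ m n] x) * c (R^[χ m n] x) - a x * b x * c x =
          (a (T^[φ m n] x) - a x) * (b (S^[ψ m n] x) * c (R^[χ m n] x)) +
          (b (S^[ψ m n] x) - b x) * (a x * c (R^[χ m n] x)) +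
          (c (R^[χ m n] x) - c x) * (a x * b x) := by ring
      rw [e1]
      refine (norm_add₃_le).trans ?_
      rw [norm_mul, norm_mul, norm_mul, norm_mul, norm_mul, norm_mul]
      refine add_le_add (add_le_add ?_ ?_) ?_
      · exact mul_le_of_le_one_right (norm_nonneg _) (mul_le_one₀ (hb1 _) (norm_nonneg _) (hc1 _))
      · exact mul_le_of_le_one_right (norm_nonneg _) (mul_le_one₀ (ha1 _) (norm_nonneg _) (hc1 _))
      · exact mul_le_of_le_one_right (norm_nonneg _) (mul_le_one₀ (ha1 _) (norm_nonneg _) (hb1 _))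
    have j12 : Integrable (fun x => ‖a (T^[φ m n] x) - a x‖ + ‖b (S^[ψ m n] x) - b x‖) μ :=
      j1.add j2
    rw [integral_add j12 j3, integral_add j1 j2] at hmono
    linarith
  have hY : ‖bavg N (fun m n => (W m n : ℂ) * Q m n) - ((ravg N W : ℝ) : ℂ) * c0‖ ≤
      3 * (δ * M) := by
    have e1 : ((ravg N W : ℝ) : ℂ) * c0 = bavg N (fun m n => (W m n : ℂ) * c0) := by
      unfold bavg ravg
      push_cast
      simp only [← Finset.sum_mul]
      ring
    rw [e1, ← bavg_sub]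
    refine (norm_bavg_le _ _).trans ?_
    have e2 : ((N : ℝ) ^ 2)⁻¹ * ∑ m ∈ range N, ∑ n ∈ range N,
        ‖(W m n : ℂ) * Q m n - (W m n : ℂ) * c0‖ ≤
        ravg N (fun m n => (W m n * ‖(koop hT ^ (φ m n)) ((memLp_bdd (μ := μ) ham ha1).toLp a) -
        (memLp_bdd (μ := μ) ham ha1).toLp a‖ +
        W m n * ‖(koop hS ^ (ψ m n)) ((memLp_bdd (μ := μ) hbm hb1).toLp b) -
        (memLp_bdd (μ := μ) hbm hb1).toLp b‖) +
        W m n * ‖(koop hR ^ (χ m n)) ((memLp_bdd (μ := μ) hcm hc1).toLp c) -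
        (memLp_bdd (μ := μ) hcm hc1).toLp c‖) := by
      unfold ravg
      gcongr with m _ n _
      rw [← mul_sub, norm_mul, Complex.norm_real, Real.norm_of_nonneg (hW0 m n)]
      have := mul_le_mul_of_nonneg_left (hQc m n) (hW0 m n)
      linarith
    refine e2.trans ?_
    rw [ravg_add, ravg_add]
    linarith
  -- conclusion
  have hfin : ‖((ravg N W : ℝ) : ℂ) * c0‖ ≤ 6 * (δ * M) := by
    have t1 := norm_sub_norm_le (((ravg N W : ℝ) : ℂ) * c0) (bavg N (fun m n => (W m n : ℂ) * Q m n))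
    rw [norm_sub_rev] at t1
    have t2 := norm_sub_norm_le (bavg N (fun m n => (W m n : ℂ) * Q m n))
      (bavg N (fun m n => (W m n : ℂ) * P m n))
    rw [norm_sub_rev] at t2
    have : δ * M > 0 := by positivity
    linarith
  have hval : ‖((ravg N W : ℝ) : ℂ) * c0‖ = ravg N W * c0 := by
    rw [norm_mul, Complex.norm_real, Complex.norm_real, Real.norm_of_nonneg hc0pos.le,
      Real.norm_of_nonneg (le_of_lt (lt_trans (by positivity) hN6))]
  rw [hval, hδ] at hfin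
  have : M / 2 * c0 < ravg N W * c0 := mul_lt_mul_of_pos_right hN6 hc0pos
  have : 0 < c0 * M := by positivity
  linarith

end main2

end

end Pool.Agent.R205.LF
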