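import Pool.Agent.R205.LF.G

/-!
# Three linear forms `m + c n`
-/

set_option autoImplicit false
open Finset Filter Topology MeasureTheory

namespace Pool.Agent.R205.LF

open Pool.Agent.Helper498.NCR

/-- distance -/
def ds (c e : ℕ) : ℕ := (c - e) + (e - c)

lemma ds_pos {c e : ℕ} (h : c ≠ e) : 1 ≤ ds c e := by unfold ds; omega

lemma shift_lemma (c e k : ℕ) (hce : c ≠ e) (H : ℕ) : ∃ (α β : ℕ → ℕ) (c₀ cχ B₁ : ℕ),
    (∀ h < H, α h + β h ≤ B₁) ∧
    (∀ h < H, ∀ m n, (m + α h) + c * (n + β h) = (m + c * n) + c₀ + (k * ds c e) * h) ∧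
    (∀ h < H, ∀ m n, (m + α h) + e * (n + β h) = (m + e * n) + cχ) := by
  rcases lt_or_gt_of_ne hce with hlt | hlt
  · -- `c < e`
    obtain ⟨y, rfl⟩ := Nat.exists_eq_add_of_lt hlt
    have hd : ds c (c + y + 1) = y + 1 := by unfold ds; omega
    refine ⟨fun h => (c + y + 1) * k * h, fun h => k * (H - h), c * k * H, (c + y + 1) * k * H,
      (c + y + 1) * k * H + k * H, ?_, ?_, ?_⟩
    · intro h hh
      simp only
      have h1 : (c + y + 1) * k * h ≤ (c + y + 1) * k * H := Nat.mul_le_mul_left _ hh.le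
      have h2 : k * (H - h) ≤ k * H := Nat.mul_le_mul_left _ (Nat.sub_le _ _)
      omega
    · intro h hh m n
      obtain ⟨x, rfl⟩ := Nat.exists_eq_add_of_lt hh
      simp only
      rw [hd, show h + x + 1 - h = x + 1 by omega]
      ring
    · intro h hh m n
      obtain ⟨x, rfl⟩ := Nat.exists_eq_add_of_lt hh
      simp only
      rw [show h + x + 1 - h = x + 1 by omega]
      ring
  · -- `e < c`
    obtain ⟨y, rfl⟩ := Nat.exists_eq_add_of_lt hlt
    have hd : ds (e + y + 1) e = y + 1 := by unfold ds; omega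
    refine ⟨fun h => e * k * (H - h), fun h => k * h, e * k * H, e * k * H,
      e * k * H + k * H, ?_, ?_, ?_⟩
    · intro h hh
      simp only
      have h1 : e * k * (H - h) ≤ e * k * H := Nat.mul_le_mul_left _ (Nat.sub_le _ _)
      have h2 : k * h ≤ k * H := Nat.mul_le_mul_left _ hh.le
      omega
    · intro h hh m n
      obtain ⟨x, rfl⟩ := Nat.exists_eq_add_of_lt hh
      simp only
      rw [hd, show h + x + 1 - h = x + 1 by omega]
      ring
    · intro h hh m n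
      obtain ⟨x, rfl⟩ := Nat.exists_eq_add_of_lt hh
      simp only
      rw [show h + x + 1 - h = x + 1 by omega]
      ring

lemma shiftForm_lin (c e : ℕ) (hce : c ≠ e) : ShiftForm (ds c e) (fun m n => m + c * n) (fun m n => m + e * n) := by
  intro J
  obtain ⟨α, β, c₀, cχ, B₁, h1, h2, h3⟩ := shift_lemma c e 1 hce J
  refine ⟨α, β, c₀, cχ, B₁, h1, fun j hj m n => ?_, fun j hj m n => h3 j hj m n⟩
  have := h2 j hj m n
  rw [one_mul] at this
  exact this

lemma charForm_lin (c : ℕ) : CharForm (fun m n => m + c * n) := fun l hl =>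
  ⟨l, l ^ c, hl, by rw [norm_pow, hl, one_pow], fun m n => by rw [pow_add, pow_mul]⟩

lemma abs_lin_lt (d y : ℕ) (α β : ℂ) (hα : ‖α‖ = 1) (hβ : ‖β‖ = 1) : ∃ A B : ℂ, ‖A‖ = 1 ∧ ‖B‖ = 1 ∧
    ∀ m n : ℕ, α ^ m * β ^ n = A ^ (m + d * n) * B ^ (m + (d + y + 1) * n) := by
  have hα0 : α ≠ 0 := fun h0 => by simp [h0] at hα
  obtain ⟨B, hB⟩ := IsAlgClosed.exists_pow_nat_eq (β * (α ^ d)⁻¹) (n := y + 1) (by omega)
  have hBn : ‖B‖ = 1 := by
    have : ‖B‖ ^ (y + 1) = 1 := by rw [← norm_pow, hB, norm_mul, norm_inv, norm_pow, hα, hβ]; simp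
    exact (pow_eq_one_iff_of_nonneg (norm_nonneg B) (by omega)).1 this
  have hB0 : B ≠ 0 := fun h0 => by simp [h0] at hBn
  refine ⟨α * B⁻¹, B, by simp [hα, hBn], hBn, fun m n => ?_⟩
  have e1 : (α * B⁻¹) * B = α := by field_simp
  have e2 : (α * B⁻¹) ^ d * B ^ (d + y + 1) = β := by
    rw [show d + y + 1 = d + (y + 1) by ring, pow_add, ← mul_assoc, ← mul_pow, e1, hB]
    have : α ^ d ≠ 0 := pow_ne_zero _ hα0
    field_simp
  calc α ^ m * β ^ n = ((α * B⁻¹) * B) ^ m * ((α * B⁻¹) ^ d * B ^ (d + y + 1)) ^ n := by rw [e1, e2]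
    _ = _ := by ring

lemma abs_lin (d e : ℕ) (hde : d ≠ e) (α β : ℂ) (hα : ‖α‖ = 1) (hβ : ‖β‖ = 1) : ∃ A B : ℂ, ‖A‖ = 1 ∧ ‖B‖ = 1 ∧
    ∀ m n : ℕ, α ^ m * β ^ n = A ^ (m + d * n) * B ^ (m + e * n) := by
  rcases lt_or_gt_of_ne hde with hlt | hlt
  · obtain ⟨y, rfl⟩ := Nat.exists_eq_add_of_lt hlt
    exact abs_lin_lt d y α β hα hβ
  · obtain ⟨y, rfl⟩ := Nat.exists_eq_add_of_lt hlt
    obtain ⟨A, B, hA, hB, h⟩ := abs_lin_lt e y α β hα hβ
    exact ⟨B, A, hB, hA, fun m n => by rw [h m n, mul_comm]⟩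

variable {Ω : Type*} [MeasurableSpace Ω] {μ : Measure Ω} [IsProbabilityMeasure μ]

theorem lin_core {T S R : Ω → Ω} (hT : MeasurePreserving T μ μ) (hS : MeasurePreserving S μ μ)
    (hR : MeasurePreserving R μ μ) (c d e : ℕ) (hcd : c ≠ d) (hce : c ≠ e) (hde : d ≠ e)
    (hcomp : ∃ B : ℕ → Set Ω, (∀ i, MeasurableSet (B i)) ∧
      (∀ i, Ergodic (T^[ds c d * ds c e]) (μ.restrict (B i))) ∧ μ (⋃ i, B i)ᶜ = 0)
    {A : Set Ω} (hA : MeasurableSet A) (hμA : μ A ≠ 0) :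
    ∃ m n : ℕ, 1 ≤ m ∧ 1 ≤ n ∧
      μ (A ∩ T^[m + c * n] ⁻¹' A ∩ S^[m + d * n] ⁻¹' A ∩ R^[m + e * n] ⁻¹' A) ≠ 0 := by
  obtain ⟨B, hBm, hBe, hBc⟩ := hcomp
  have hw : 1 ≤ ds c d * ds c e := Nat.one_le_iff_ne_zero.2 (Nat.mul_ne_zero (by have := ds_pos hcd; omega)
    (by have := ds_pos hce; omega))
  exact main_absG hT hS hR (fun m n => m + c * n) (fun m n => m + d * n) (fun m n => m + e * n)
    (fun g hg hg1 ho => control_absG hT hg hg1 (ds c d * ds c e) (ds c d * ds c e)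
      (ctrlG_of_components hT _ hw B hBm hBe hBc hg hg1 ho)
      (fun m n => m + c * n) (fun m n => m + d * n) (fun m n => m + e * n)
      (fun H => by
        obtain ⟨α, β, c₀, cχ, B₁, h1, h2, h3⟩ := shift_lemma c e (ds c d) hce H
        refine ⟨α, β, fun h => α h + d * β h, c₀, cχ, B₁, h1, fun h hh m n => h2 h hh m n, fun h hh m n => ?_,
          fun h hh m n => h3 h hh m n⟩
        simp only
        ring)
      (fun J => by
        obtain ⟨α, β, c₀, cχ, B₁, h1, h2, h3⟩ := shift_lemma c d (ds c e) hcd J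
        refine ⟨α, β, c₀, cχ, B₁, h1, fun j hj m n => ?_, fun j hj m n => h3 j hj m n⟩
        have := h2 j hj m n
        rw [mul_comm (ds c e)] at this
        exact this))
    (fun α β hα hβ => abs_lin d e hde α β hα hβ) (charForm_lin c) (charForm_lin d) (charForm_lin e)
    (ds d e) (ds_pos hde) (shiftForm_lin d e hde) (ds e d) (ds_pos hde.symm) (shiftForm_lin e d hde.symm) hA hμA

end Pool.Agent.R205.LF
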